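import Pool.Agent.Q270.MlsSalem

/-!
# An algebraic integer for which the set of the values `limsup ‖ξ α ^ n‖` is not closed
-/

set_option autoImplicit false

namespace Pool.Agent.Results.MP_b81a64_nt.LimsupSetNotClosed

open Polynomial Filter

/-- the set of the values `limsup ‖ξ α ^ n‖`, where `‖·‖` is the distance to the nearest
integer and `ξ` runs over the real numbers -/
def limsupSet (α : ℝ) : Set ℝ :=
  {v | ∃ ξ : ℝ, limsup (fun n : ℕ => |ξ * α ^ n - round (ξ * α ^ n)|) atTop = v}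

/-- **Main theorem.** -/
theorem result : ∃ α : ℝ, 1 < α ∧ IsIntegral ℤ α ∧ α ^ 4 - 2 * α ^ 3 - 2 * α + 1 = 0 ∧
    ¬ IsClosed (limsupSet α) := by
  refine ⟨Pool.Agent.Q270.Mls.α0, by linarith [Pool.Agent.Q270.Mls.α0_gt], ?_, ?_, ?_⟩
  · refine ⟨Pool.Agent.Q270.Mls.P0, Pool.Agent.Q270.Mls.P0_monic, ?_⟩
    have h := (Pool.Agent.Q270.Mls.P0_root (Pool.Agent.Q270.Mls.α0 : ℂ)).2 (Or.inl rfl)
    rw [eval_map] at h
    apply Complex.ofReal_injective
    rw [Complex.ofReal_zero, ← h]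
    change Complex.ofRealHom _ = _
    rw [hom_eval₂]
    congr 1
  · have h := (Pool.Agent.Q270.Mls.P0_root (Pool.Agent.Q270.Mls.α0 : ℂ)).2 (Or.inl rfl)
    unfold Pool.Agent.Q270.Mls.P0 at h
    simp only [Polynomial.map_add, Polynomial.map_sub, Polynomial.map_mul, Polynomial.map_pow,
      map_X, Polynomial.map_one, Polynomial.map_ofNat, eval_add, eval_sub, eval_mul, eval_pow,
      eval_X, eval_one, eval_ofNat] at h
    apply Complex.ofReal_injective
    push_cast
    exact h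
  · have hmain := Pool.Agent.Q270.Mls.main Pool.Agent.Q270.Mls.P0_monic
      Pool.Agent.Q270.Mls.P0_irreducible Pool.Agent.Q270.Mls.P0_exp Pool.Agent.Q270.Mls.P0_unit 0
    rw [Pool.Agent.Q270.Mls.spectrum_singleton Pool.Agent.Q270.Mls.exp_P0] at hmain
    exact hmain.2.2.1

end Pool.Agent.Results.MP_b81a64_nt.LimsupSetNotClosed
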